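import Pool.Graph.R_pool_sql_team_seeded_47a924f7.Results.MP_11c1cd_al.ArithmeticGraphs

set_option autoImplicit false

/-! The arithmetic graphs of a product of pairwise mutually permutable subgroups are determined by those of
the products of two of the factors. -/

namespace Pool.Agent.Results.MP_11c1cd_al.PairsSuffice

open Subgroup
open scoped Pointwise
open Pool.Agent.T6.H25.MPG
open Pool.Agent.T6.H25.PM

universe u v w
variable {G : Type u} [Group G]

lemma NN_sub {p q : ℕ} {A B : Subgroup G} (hAB : A ≤ B) (h : NN p q B) : NN p q (⊤ : Subgroup A) := by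
  intro X _ hX y _ hy hyX x hx
  obtain ⟨k, hk⟩ := hy
  have h1 := h (X.map A.subtype) ((map_subtype_le X).trans hAB) (hX.map _) y.1 (hAB y.2)
    ⟨k, by have := congrArg Subtype.val hk; simpa using this⟩ (by
      rintro _ ⟨x, hx, rfl⟩
      exact ⟨y * x * y⁻¹, hyX x hx, by simp⟩) x.1 ⟨x, hx, rfl⟩
  exact Subtype.ext (by simpa using h1)

lemma sylow_normal {Q : Type u} [Group Q] [Finite Q] {p : ℕ} (hp : p.Prime)
    (hQ : Nat.card Q ∣ p * (p - 1)) (hpQ : p ∣ Nat.card Q) (R : Sylow p Q) :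
    (R : Subgroup Q).Normal := by
  have : Fact p.Prime := ⟨hp⟩
  have h1 := card_sylow_modEq_one p Q
  have h2 := R.card_dvd_index
  have h3 : p ∣ Nat.card R := R.dvd_card_of_dvd_card hpQ
  have h4 : Nat.card R * (R : Subgroup Q).index = Nat.card Q := card_mul_index _
  obtain ⟨m, hm⟩ := h3
  have h5 : (R : Subgroup Q).index ∣ p - 1 := by
    have h6 : p * (m * (R : Subgroup Q).index) ∣ p * (p - 1) := by
      rw [← mul_assoc, ← hm, h4]
      exact hQ
    exact (Dvd.intro_left m rfl).trans ((Nat.mul_dvd_mul_iff_left hp.pos).1 h6)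
  have h7 : Nat.card (Sylow p Q) ≤ p - 1 :=
    Nat.le_of_dvd (by have := hp.two_le; omega) (h2.trans h5)
  have h8 : Nat.card (Sylow p Q) = 1 := by
    have h9 : Nat.card (Sylow p Q) % p = 1 % p := h1
    rw [Nat.mod_eq_of_lt (by have := hp.two_le; omega), Nat.mod_eq_of_lt hp.one_lt] at h9
    exact h9
  have : Subsingleton (Sylow p Q) := (Nat.card_eq_one_iff_unique.1 h8).1
  exact Sylow.normal_of_subsingleton R

lemma mem_of_pows {A : Subgroup G} {w : G} {a b : ℕ} (hab : Nat.Coprime a b) (ha : w ^ a ∈ A)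
    (hb : w ^ b ∈ A) : w ∈ A := by
  obtain ⟨s, t, h⟩ := Nat.isCoprime_iff_coprime.2 hab
  have h1 : w = (w ^ a) ^ s * (w ^ b) ^ t := by
    rw [← zpow_natCast, ← zpow_natCast, ← zpow_mul, ← zpow_mul, ← zpow_add, mul_comm (a : ℤ) s,
      mul_comm (b : ℤ) t, h, zpow_one]
  rw [h1]
  exact mul_mem (zpow_mem ha s) (zpow_mem hb t)

theorem lemA2 [Finite G] {A B : Subgroup G} (h : MP A B) {p q : ℕ} (hp : p.Prime) (hq : q.Prime)
    (hpq : p ≠ q) (hNN : NN p q (A ⊔ B)) : ∀ (n : ℕ) (c : G), c ∈ B → c ^ p ^ n = 1 →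
      ∀ x ∈ A ⊔ zpowers c, (∃ k, x ^ q ^ k = 1) → x ∈ A := by
  have : Fact p.Prime := ⟨hp⟩
  intro n
  induction n with
  | zero =>
    intro c _ hcn x hx _
    rw [pow_zero, pow_one] at hcn
    rwa [hcn, zpowers_one_eq_bot, sup_bot_eq] at hx
  | succ n ih =>
    rintro c hc hcn x hx ⟨k, hk⟩
    refine ih (c ^ p) (pow_mem hc p) (by rw [← pow_mul, ← pow_succ']; exact hcn) x ?_ ⟨k, hk⟩
    by_cases hcA : c ∈ A ⊔ zpowers (c ^ p)
    · exact (sup_le le_sup_left (zpowers_le.2 hcA)) hx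
    obtain ⟨C, hC, h1, h2, h3⟩ := step_sub h hp hc hcn rfl
    have hcA1 : c ∈ A ⊔ zpowers c := le_sup_right (a := A) (mem_zpowers c)
    have hle : A ⊔ zpowers c ≤ A ⊔ B := sup_le_sup_left (zpowers_le.2 hc) A
    set π := QuotientGroup.mk' C with hπ
    have hNQ : NN p q ((⊤ : Subgroup ↥(A ⊔ zpowers c)).map π) := (NN_sub hle hNN).map π hp hq
    have htop : (⊤ : Subgroup ↥(A ⊔ zpowers c)).map π = ⊤ := by
      rw [← MonoidHom.range_eq_map, QuotientGroup.range_mk']
    rw [htop] at hNQ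
    -- the image of `c`
    have hcC : π ⟨c, hcA1⟩ ≠ 1 := by
      intro h4
      exact hcA (h1 _ ((QuotientGroup.eq_one_iff _).1 h4))
    have hcp : (π ⟨c, hcA1⟩) ^ p ^ (n + 1) = 1 := by
      rw [← map_pow]
      have : (⟨c, hcA1⟩ : ↥(A ⊔ zpowers c)) ^ p ^ (n + 1) = 1 := Subtype.ext hcn
      rw [this, map_one]
    have hpQ : p ∣ Nat.card (↥(A ⊔ zpowers c) ⧸ C) := by
      by_contra h4
      apply hcC
      have h5 : orderOf (π ⟨c, hcA1⟩) ∣ p ^ (n + 1) := orderOf_dvd_of_pow_eq_one hcp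
      have h6 : orderOf (π ⟨c, hcA1⟩) ∣ Nat.card (↥(A ⊔ zpowers c) ⧸ C) := orderOf_dvd_natCard _
      exact orderOf_eq_one_iff.1 (Nat.eq_one_of_dvd_coprimes
        (Nat.Coprime.pow_left _ ((Nat.Prime.coprime_iff_not_dvd hp).2 h4)) h5 h6)
    obtain ⟨R, hR⟩ := (isPGroup_zpowers hcp).exists_le_sylow
    have hRn := sylow_normal hp h3 hpQ R
    have hcR : π ⟨c, hcA1⟩ ∈ (R : Subgroup _) := hR (mem_zpowers _)
    have hxq : (π ⟨x, hx⟩) ^ q ^ k = 1 := by
      rw [← map_pow]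
      have : (⟨x, hx⟩ : ↥(A ⊔ zpowers c)) ^ q ^ k = 1 := Subtype.ext hk
      rw [this, map_one]
    have hcomm : π ⟨x, hx⟩ * π ⟨c, hcA1⟩ = π ⟨c, hcA1⟩ * π ⟨x, hx⟩ :=
      hNQ R le_top R.isPGroup' _ (mem_top _) ⟨k, hxq⟩ (fun r hr => hRn.conj_mem r hr _) _ hcR
    obtain ⟨a, ha, b, hb, hxab⟩ := (h.2 (zpowers c) (zpowers_le.2 hc)).mem_sup hx
    obtain ⟨j, rfl⟩ := mem_zpowers_iff.1 hb
    have haA1 : a ∈ A ⊔ zpowers c := le_sup_left (b := zpowers c) ha
    have hxe : (⟨x, hx⟩ : ↥(A ⊔ zpowers c)) = ⟨a, haA1⟩ * ⟨c, hcA1⟩ ^ j := Subtype.ext (by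
      simpa using hxab)
    have hca : Commute (π ⟨a, haA1⟩) (π ⟨c, hcA1⟩ ^ j) := by
      have h4 : Commute (π ⟨x, hx⟩) (π ⟨c, hcA1⟩) := hcomm
      have h5 : π ⟨a, haA1⟩ = π ⟨x, hx⟩ * (π ⟨c, hcA1⟩ ^ j)⁻¹ := by
        rw [hxe, map_mul, map_zpow, mul_inv_cancel_right]
      rw [h5]
      exact ((h4.zpow_right j).mul_left ((Commute.refl _).inv_left))
    have h6 : π ⟨a, haA1⟩ ^ q ^ k * (π ⟨c, hcA1⟩ ^ j) ^ q ^ k = 1 := by
      rw [← hca.mul_pow, ← map_zpow, ← map_mul, ← hxe]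
      exact hxq
    have h7 : (c ^ j) ^ q ^ k ∈ A ⊔ zpowers (c ^ p) := by
      have h8 : (⟨a, haA1⟩ : ↥(A ⊔ zpowers c)) ^ q ^ k * (⟨c, hcA1⟩ ^ j) ^ q ^ k ∈ C := by
        rw [← QuotientGroup.eq_one_iff]
        change π _ = 1
        rw [map_mul, map_pow, map_pow, map_zpow]
        exact h6
      have h9 : a ^ q ^ k * (c ^ j) ^ q ^ k ∈ A ⊔ zpowers (c ^ p) := by simpa using h1 _ h8
      have h10 : a ^ q ^ k ∈ A ⊔ zpowers (c ^ p) := le_sup_left (b := zpowers (c ^ p)) (pow_mem ha _)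
      have h11 := mul_mem (inv_mem h10) h9
      rwa [inv_mul_cancel_left] at h11
    have h12 : (c ^ j) ^ p ∈ A ⊔ zpowers (c ^ p) := by
      apply le_sup_right (a := A)
      refine mem_zpowers_iff.2 ⟨j, ?_⟩
      rw [← zpow_natCast, ← zpow_mul, ← zpow_natCast, ← zpow_mul, mul_comm]
    rw [hxab]
    exact mul_mem (le_sup_left (b := zpowers (c ^ p)) ha) (mem_of_pows (Nat.Coprime.pow_left _
      ((Nat.coprime_primes hq hp).2 hpq.symm)) h7 h12)

lemma norm_Kq2 [Finite G] {A B : Subgroup G} (h : MP A B) {p q : ℕ} (hp : p.Prime) (hq : q.Prime)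
    (hpq : p ≠ q) (hNN : NN p q (A ⊔ B)) {b : G} (hb : b ∈ B) {n : ℕ} (hbn : b ^ p ^ n = 1) :
    b ∈ normalizer (Kq q A : Set G) := by
  apply mem_norm_of
  apply Kq_conj
  rintro x hx ⟨k, hk⟩
  refine lemA2 h hp hq hpq hNN n b hb hbn _ ?_ ⟨k, by rw [conj_pow, hk]; group⟩
  have hbA : b ∈ A ⊔ zpowers b := le_sup_right (a := A) (mem_zpowers b)
  exact mul_mem (mul_mem hbA (le_sup_left (a := A) hx)) (inv_mem hbA)

/-- a normal `p`-subgroup is centralised by all `q`-elements -/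
theorem lemPG2 [Finite G] {p q : ℕ} (hp : p.Prime) (hq : q.Prime) (hpq : p ≠ q) {ι : Type v}
    [Fintype ι] [DecidableEq ι] {H : ι → Subgroup G} (hmp : ∀ i j, MP (H i) (H j))
    (htop : Finset.univ.sup H = ⊤) (hNN2 : ∀ i j, NN p q (H i ⊔ H j))
    {N : Subgroup G} (hN : N.Normal) (hNp : IsPGroup p N) {y : G} (hy : ∃ k, y ^ q ^ k = 1) :
    ∀ x ∈ N, y * x = x * y := by
  have hNN : ∀ i, NN p q (H i) := fun i => by
    have := hNN2 i i
    rwa [sup_idem] at this
  obtain ⟨P, hPp, _, hPi, hPsup, _⟩ := exists_presylow hp hmp Finset.univ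
  rw [htop, relIndex_top_right] at hPi
  have hNP : N ≤ P := normal_le_syl hp hN hNp hPi
  have hC : ∀ i, ∀ y ∈ H i, (∃ k, y ^ q ^ k = 1) → ∀ x ∈ N, y * x = x * y := by
    intro i y hyi hyq x hx
    by_cases hy1 : y = 1
    · rw [hy1, one_mul, mul_one]
    have hPn : P ≤ normalizer (Kq q (H i) : Set G) := by
      refine hPsup.trans (Finset.sup_le fun j _ z hz => ?_)
      obtain ⟨k, hk⟩ := pelem_of hPp hz.1
      exact norm_Kq2 (hmp i j) hp hq hpq (hNN2 i j) hz.2 hk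
    have hyK : y ∈ Kq q (H i) := mem_Kq hyi hyq
    have h1 : x⁻¹ * y * x⁻¹⁻¹ ∈ Kq q (H i) := mem_norm (inv_mem (hPn (hNP hx))) hyK
    have h2 : y * x * y⁻¹ * x⁻¹ ∈ N ⊓ H i := by
      refine mem_inf.2 ⟨mul_mem (hN.conj_mem x hx y) (inv_mem hx), ?_⟩
      have h3 := mem_norm (hPn (hNP hx)) (inv_mem hyK)
      have : y * x * y⁻¹ * x⁻¹ = y * (x * y⁻¹ * x⁻¹) := by group
      rw [this]
      exact mul_mem hyi (Kq_le _ _ h3)
    have h3 : IsPGroup p ↥(N ⊓ H i) := hNp.to_le inf_le_left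
    have h4 := hNN i (N ⊓ H i) inf_le_right h3 y hyi hyq (fun x hx =>
      mem_inf.2 ⟨hN.conj_mem x hx.1 y, mul_mem (mul_mem hyi hx.2) (inv_mem hyi)⟩) _ h2
    obtain ⟨k, hk⟩ := hyq
    obtain ⟨l, hl⟩ := pelem_of h3 h2
    have h5 := cop hp hq hpq (x := x) (z := y * x * y⁻¹ * x⁻¹) (by group) h4 hk hl
    calc y * x = (y * x * y⁻¹ * x⁻¹) * x * y := by group
      _ = x * y := by rw [h5, one_mul]
  obtain ⟨Q, hQp, _, hQi, hQsup, _⟩ := exists_presylow hq hmp Finset.univ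
  rw [htop] at hQi
  have hQc : Q ≤ centralizer (N : Set G) := by
    refine hQsup.trans (Finset.sup_le fun i _ z hz => ?_)
    rw [mem_centralizer_iff]
    exact fun x hx => (hC i z hz.2 (pelem_of hQp hz.1) x hx).symm
  obtain ⟨k, hk⟩ := hy
  obtain ⟨g, _, hg⟩ := syl_dom hq (X := ⊤) (isPGroup_zpowers hk) le_top (Q := Q) hQi
  have h1 := hQc (hg y (mem_zpowers y))
  have h2 : y ∈ centralizer (N : Set G) := by
    have h3 : (centralizer (N : Set G)).Normal := inferInstance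
    have h4 := h3.conj_mem _ h1 g⁻¹
    convert h4 using 1
    group
  intro x hx
  exact (mem_centralizer_iff.1 h2 x hx).symm

theorem nc_thm2 {p q : ℕ} (hp : p.Prime) (hq : q.Prime) (hpq : p ≠ q) : ∀ (n : ℕ) (G : Type u)
    [Group G] [Finite G] (ι : Type v) [Fintype ι] [DecidableEq ι] (H : ι → Subgroup G),
    Nat.card G = n → (∀ i j, MP (H i) (H j)) → Finset.univ.sup H = ⊤ → (∀ i j, NN p q (H i ⊔ H j)) →
    NN p q (⊤ : Subgroup G) := by
  intro n
  induction n using Nat.strong_induction_on with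
  | _ n ih =>
  rintro G _ _ ι _ _ H hn hmp htop hNN2 X - hX y - hy hyX x hx
  have hNN : ∀ i, NN p q (H i) := fun i => by
    have := hNN2 i i
    rwa [sup_idem] at this
  by_contra hxy
  have hz : y * x * y⁻¹ * x⁻¹ ≠ 1 := by
    intro h1
    apply hxy
    calc y * x = (y * x * y⁻¹ * x⁻¹) * (x * y) := by group
      _ = x * y := by rw [h1, one_mul]
  have hzX : y * x * y⁻¹ * x⁻¹ ∈ X := mul_mem (hyX x hx) (inv_mem hx)
  obtain ⟨N, hN, hzN⟩ := exists_mono hz (fun M hM hMne => by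
    have h1 := ih _ (hn ▸ card_quot_lt hMne) (G ⧸ M) ι (fun i => (H i).map (QuotientGroup.mk' M)) rfl
      (fun i j => (hmp i j).map _) (map_univ_sup _ (QuotientGroup.mk'_surjective M) htop)
      (fun i j => by
        rw [← Subgroup.map_sup]
        exact (hNN2 i j).map _ hp hq)
    obtain ⟨k, hk⟩ := hy
    have h2 := h1 (X.map (QuotientGroup.mk' M)) le_top (hX.map _) (QuotientGroup.mk' M y) (mem_top _)
      ⟨k, by rw [← map_pow, hk, map_one]⟩ (by
        rintro _ ⟨x, hx, rfl⟩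
        exact ⟨_, hyX x hx, by simp⟩) _ ⟨x, hx, rfl⟩
    rw [← QuotientGroup.eq_one_iff]
    change QuotientGroup.mk' M (y * x * y⁻¹ * x⁻¹) = 1
    rw [map_mul, map_mul, map_mul, h2, map_inv, map_inv]
    group)
  have key : ∀ x ∈ X ⊓ N, y * x = x * y := by
    have hNn := hN.normal
    by_cases hs : Group.IsSolvable N
    · have hpN : p ∣ Nat.card N := by
        by_contra h1
        exact hz (eq_one_of_not_dvd hp h1 hzN (pelem_of hX hzX))
      exact fun x hx => lemPG2 hp hq hpq hmp htop hNN2 hNn (mono_solv hp hN hs hpN) hy x hx.2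
    · exact gammaCase hp hq hmp htop hNN hN (fun i => lemNA hmp htop hN hs i) inf_le_right
        (hX.to_le inf_le_left) hy (fun x hx => mem_inf.2 ⟨hyX x hx.1, hNn.conj_mem x hx.2 y⟩)
  obtain ⟨k, hk⟩ := hy
  obtain ⟨l, hl⟩ := pelem_of hX hzX
  exact hz (cop hp hq hpq (x := x) (z := y * x * y⁻¹ * x⁻¹) (by group)
    (key _ (mem_inf.2 ⟨hzX, hzN⟩)) hk hl)

theorem hk_thm2 {p q : ℕ} (hp : p.Prime) (hq : q.Prime) (hpq : p ≠ q) : ∀ (n : ℕ) (G : Type u)
    [Group G] [Finite G] (ι : Type v) [Fintype ι] [DecidableEq ι] (H : ι → Subgroup G),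
    Nat.card G = n → (∀ i j, MP (H i) (H j)) → Finset.univ.sup H = ⊤ →
    (∀ i j, ¬ p ∣ Nat.card (Kq q (H i ⊔ H j))) →
    ¬ p ∣ Nat.card (Kq q (⊤ : Subgroup G)) := by
  intro n
  induction n using Nat.strong_induction_on with
  | _ n ih =>
  intro G _ _ ι _ _ H hn hmp htop hK2 hd
  have hK : ∀ i, ¬ p ∣ Nat.card (Kq q (H i)) := fun i => by
    have := hK2 i i
    rwa [sup_idem] at this
  have hNN2 : ∀ i j, NN p q (H i ⊔ H j) := fun i j => NN_of_Hk hp (hK2 i j)
  have : Fact p.Prime := ⟨hp⟩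
  obtain ⟨⟨z, hzK⟩, hz0⟩ := exists_prime_orderOf_dvd_card' p hd
  rw [orderOf_mk] at hz0
  have hzp : z ^ p = 1 := by rw [← hz0]; exact pow_orderOf_eq_one z
  have hz : z ≠ 1 := by
    rintro rfl
    rw [orderOf_one] at hz0
    exact hp.one_lt.ne hz0
  have hquot : ∀ (M : Subgroup G) (_ : M.Normal), M ≠ ⊥ →
      ¬ p ∣ Nat.card ((Kq q (⊤ : Subgroup G)).map (QuotientGroup.mk' M)) := by
    intro M hM hMne
    have h1 := ih _ (hn ▸ card_quot_lt hMne) (G ⧸ M) ι (fun i => (H i).map (QuotientGroup.mk' M)) rfl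
      (fun i j => (hmp i j).map _) (map_univ_sup _ (QuotientGroup.mk'_surjective M) htop)
      (fun i j => by
        rw [← Subgroup.map_sup, ← Kq_map _ hq]
        exact fun h => hK2 i j (h.trans (card_map_dvd' _ _)))
    have h2 : Kq q (⊤ : Subgroup (G ⧸ M)) = (Kq q (⊤ : Subgroup G)).map (QuotientGroup.mk' M) := by
      rw [Kq_map _ hq, ← MonoidHom.range_eq_map, QuotientGroup.range_mk']
    rwa [h2] at h1
  obtain ⟨N, hN, hzN⟩ := exists_mono hz (fun M hM hMne => by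
    have h1 : QuotientGroup.mk' M z = 1 := eq_one_of_not_dvd hp (hquot M hM hMne) ⟨z, hzK, rfl⟩
      ⟨1, by rw [pow_one, ← map_pow, hzp, map_one]⟩
    exact (QuotientGroup.eq_one_iff z).1 h1)
  have hNn := hN.normal
  have hpN : p ∣ Nat.card N := by
    by_contra h1
    exact hz (eq_one_of_not_dvd hp h1 hzN ⟨1, by rw [pow_one]; exact hzp⟩)
  set K := Kq q (⊤ : Subgroup G) with hKdef
  by_cases hs : Group.IsSolvable N
  · have hPG : ∀ {y : G}, (∃ k, y ^ q ^ k = 1) → ∀ x ∈ N, y * x = x * y := fun hy =>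
      lemPG2 hp hq hpq hmp htop hNN2 hNn (mono_solv hp hN hs hpN) hy
    have hKc : K ≤ centralizer (N : Set G) := by
      rw [hKdef, Kq, closure_le]
      rintro y ⟨-, hy⟩
      rw [SetLike.mem_coe, mem_centralizer_iff]
      exact fun x hx => (hPG hy x hx).symm
    have hZ : N.subgroupOf K ≤ center K := by
      intro x hx
      rw [mem_center_iff]
      intro y
      exact Subtype.ext ((mem_centralizer_iff.1 (hKc y.2) x (mem_subgroupOf.1 hx)).symm)
    have hZi : ¬ p ∣ (center K).index := by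
      have h1 : (N.subgroupOf K).index = Nat.card (K.map (QuotientGroup.mk' N)) := by
        rw [← relIndex_ker, QuotientGroup.ker_mk']; rfl
      intro h2
      apply hquot N hNn hN.ne
      rw [← h1]
      exact h2.trans (index_dvd_of_le hZ)
    have hmul : ∀ x ∈ K, ∀ y ∈ K, ∃ a b : K, (x * y) ^ (center K).index = x ^ (center K).index *
        y ^ (center K).index ∧ x ^ (center K).index * y ^ (center K).index =
        y ^ (center K).index * x ^ (center K).index := by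
      intro x hx y hy
      refine ⟨1, 1, ?_, ?_⟩
      · have h1 := map_mul (MonoidHom.transferCenterPow K) ⟨x, hx⟩ ⟨y, hy⟩
        have h2 := congrArg (fun w : center K => ((w : K) : G)) h1
        simpa [MonoidHom.transferCenterPow_apply] using h2
      · have h1 := mem_center_iff.1 (MonoidHom.transferCenterPow K ⟨x, hx⟩).2
          ((⟨y, hy⟩ : K) ^ (center K).index)
        have h2 := congrArg (fun w : K => (w : G)) h1
        exact h2.symm
    have hall : ∀ x ∈ K, x ∈ K ∧ ∃ k, (x ^ (center K).index) ^ q ^ k = 1 := by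
      intro x hx
      have hx' : x ∈ closure {x | x ∈ (⊤ : Subgroup G) ∧ ∃ k, x ^ q ^ k = 1} := hx
      induction hx' using closure_induction with
      | mem x h =>
        obtain ⟨_, k, hk⟩ := h
        exact ⟨hx, k, by rw [← pow_mul, mul_comm, pow_mul, hk, one_pow]⟩
      | one => exact ⟨hx, 0, by simp⟩
      | mul x y hx1 hy1 ihx ihy =>
        obtain ⟨hxK, k, hk⟩ := ihx hx1
        obtain ⟨hyK, l, hl⟩ := ihy hy1
        obtain ⟨_, _, e1, e2⟩ := hmul x hxK y hyK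
        refine ⟨hx, k + l, ?_⟩
        rw [e1, (show Commute _ _ from e2).mul_pow, pow_add, pow_mul, hk, one_pow, one_mul,
          mul_comm (q ^ k), pow_mul, hl, one_pow]
      | inv x hx1 ihx =>
        obtain ⟨hxK, k, hk⟩ := ihx hx1
        exact ⟨hx, k, by rw [inv_pow, inv_pow, hk, inv_one]⟩
    obtain ⟨_, k, hk⟩ := hall z hzK
    have h1 : z ^ (center K).index = 1 := coprime_one (i := 1) (j := k) hp hq hpq (by
      rw [pow_one, ← pow_mul, mul_comm, pow_mul, hzp, one_pow]) hk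
    have h2 : Nat.Coprime p (center K).index := (Nat.Prime.coprime_iff_not_dvd hp).2 hZi
    exact hz (orderOf_eq_one_iff.1 (Nat.eq_one_of_dvd_coprimes h2 (orderOf_dvd_of_pow_eq_one hzp)
      (orderOf_dvd_of_pow_eq_one h1)))
  · have hcent := mono_cent hN hs
    have hKi : ∀ i, Kq q (H i) = ⊥ := by
      intro i
      rcases lemNA hmp htop hN hs i with h1 | h1
      · rw [eq_bot_iff, ← h1]; exact Kq_le q _
      · have h2 : N ≤ normalizer (Kq q (H i) : Set G) := h1.trans (Kq_norm q _)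
        have h3 := nonsolv_inf hp hN hpN h2 (hK i)
        rw [eq_bot_iff, ← hcent]
        intro y hy
        rw [mem_centralizer_iff]
        intro x hx
        have h4 : x * y * x⁻¹ * y⁻¹ ∈ N ⊓ Kq q (H i) := by
          refine mem_inf.2 ⟨?_, mul_mem (mem_norm (h2 hx) hy) (inv_mem hy)⟩
          have : x * y * x⁻¹ * y⁻¹ = x * (y * x⁻¹ * y⁻¹) := by group
          rw [this]
          exact mul_mem hx (hNn.conj_mem _ (inv_mem hx) y)
        rw [h3, mem_bot] at h4
        calc x * y = (x * y * x⁻¹ * y⁻¹) * (y * x) := by group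
          _ = y * x := by rw [h4, one_mul]
    obtain ⟨Q, hQp, _, hQi, hQsup, _⟩ := exists_presylow hq hmp Finset.univ
    have hQ0 : Q = ⊥ := by
      rw [eq_bot_iff]
      refine hQsup.trans (Finset.sup_le fun i _ x hx => ?_)
      rw [← hKi i]
      exact mem_Kq hx.2 (pelem_of hQp hx.1)
    rw [htop, hQ0, relIndex_bot_left] at hQi
    have h1 : K ≤ ⊥ := by
      rw [hKdef, Kq, closure_le]
      rintro y ⟨hy, hyk⟩
      exact mem_bot.2 (eq_one_of_not_dvd hq hQi hy hyk)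
    exact hz (mem_bot.1 (h1 hzK))


lemma NN_mono {p q : ℕ} {A B : Subgroup G} (hAB : A ≤ B) (h : NN p q B) : NN p q A :=
  fun X hX hXp y hy hyq hyX => h X (hX.trans hAB) hXp y (hAB hy) hyq hyX

open Pool.Agent.Results.MP_11c1cd_al.ArithmeticGraphs

lemma graph_ext {Γ Δ : Graph} (h1 : Γ.V = Δ.V) (h2 : Γ.E = Δ.E) : Γ = Δ := by
  cases Γ; cases Δ; simp_all

lemma nc_edge {X : Type u} [Group X] [Finite X] {p q : ℕ} : (p, q) ∈ (nCritical X).E ↔
    p.Prime ∧ q.Prime ∧ p ≠ q ∧ ¬ NN p q (⊤ : Subgroup X) := by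
  constructor
  · rintro ⟨S, hS⟩
    have hp : p.Prime := by
      have : p ∈ primeSet (Nat.card S) := by rw [hS.2.1]; exact Or.inl rfl
      exact this.1
    have hq : q.Prime := by
      have : q ∈ primeSet (Nat.card S) := by rw [hS.2.1]; exact Or.inr rfl
      exact this.1
    have hpq : p ≠ q := by
      rintro rfl
      apply hS.1.1
      have : Fact p.Prime := ⟨hp⟩
      have h1 : Nat.card S = p ^ (Nat.card S).primeFactorsList.length := by
        apply Nat.eq_prime_pow_of_unique_prime_dvd Nat.card_pos.ne'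
        intro d hd hdS
        have h2 : d ∈ primeSet (Nat.card S) := ⟨hd, hdS⟩
        rw [hS.2.1] at h2
        rcases h2 with h2 | h2
        · exact h2
        · exact h2
      exact (IsPGroup.of_card h1).isNilpotent
    exact ⟨hp, hq, hpq, fun h => no_schmidt hp hq h S hS⟩
  · rintro ⟨hp, hq, hpq, h⟩
    obtain ⟨S, hS⟩ := exists_schmidt hp hq hpq h
    exact ⟨S, hS⟩

lemma nc_edge_sub [Finite G] {A : Subgroup G} {p q : ℕ} : (p, q) ∈ (nCritical A).E ↔
    p.Prime ∧ q.Prime ∧ p ≠ q ∧ ¬ NN p q A := by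
  rw [nc_edge]
  constructor
  · rintro ⟨hp, hq, hpq, h⟩
    exact ⟨hp, hq, hpq, fun h1 => h (NN_sub le_rfl h1)⟩
  · rintro ⟨hp, hq, hpq, h⟩
    refine ⟨hp, hq, hpq, fun h1 => h ?_⟩
    have h2 := h1.map A.subtype hp hq
    rwa [← MonoidHom.range_eq_map, range_subtype] at h2

lemma hk_edge {X : Type u} [Group X] [Finite X] {p q : ℕ} (hpq : p ≠ q) : (p, q) ∈ (hawkes X).E ↔
    p.Prime ∧ q.Prime ∧ p ∣ Nat.card (Kq q (⊤ : Subgroup X)) := by
  constructor
  · rintro ⟨⟨hp, h1⟩, hq, h2⟩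
    refine ⟨hp, hq, ?_⟩
    by_contra h3
    exact opp_of_hk hp hq h3 h2
  · rintro ⟨hp, hq, h⟩
    refine ⟨⟨hp, h.trans (card_subgroup_dvd_card _)⟩, hq, ?_⟩
    by_contra h3
    exact hk_of_opp hp hq hpq h3 h

/-- **Theorem.** Let the finite group `G` be the product of the pairwise mutually permutable subgroups
`G_1, …, G_n`. Then (1) and (2) hold, and for `n ≥ 2` the `N`-critical graph of `G` is the union of the
`N`-critical graphs of the subgroups `G_i G_j`, and so is the Hawkes graph, up to loops. -/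
theorem result (G : Type u) [Group G] [Finite G] (n : ℕ) (H : Fin n → Subgroup G)
    (h : IsMPProduct H) :
    hawkes G ⊆ (iUnion fun i : Fin n => hawkes (H i)) ∪
        (iUnion fun e : {e : Fin n × Fin n // e.1 ≠ e.2} => cross (H e.1.1) (H e.1.2)) ∪ loops G ∧
    nCritical G ⊆ (iUnion fun i : Fin n => nCritical (H i)) ∪
        (iUnion fun e : {e : Fin n × Fin n // e.1 ≠ e.2} => cross (H e.1.1) (H e.1.2)) ∧
    (2 ≤ n →
      nCritical G =
        (iUnion fun e : {e : Fin n × Fin n // e.1 ≠ e.2} => nCritical ↥(H e.1.1 ⊔ H e.1.2)) ∧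
      hawkes G ∪ loops G =
        (iUnion fun e : {e : Fin n × Fin n // e.1 ≠ e.2} => hawkes ↥(H e.1.1 ⊔ H e.1.2)) ∪
          loops G) := by
  obtain ⟨r1, r2⟩ := ArithmeticGraphs.result G n H h
  refine ⟨r1, r2, fun hn => ?_⟩
  obtain ⟨hprod, hmp0⟩ := h
  have hmp := mp_all hmp0
  have htop := top_of hprod
  have hother : ∀ i : Fin n, ∃ j, i ≠ j := by
    intro i
    by_cases hi : (i : ℕ) = 0
    · exact ⟨⟨1, by omega⟩, fun h => by rw [h] at hi; simp at hi⟩
    · exact ⟨⟨0, by omega⟩, fun h => by rw [h] at hi; simp at hi⟩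
  have hV : primeSet (Nat.card G) = ⋃ e : {e : Fin n × Fin n // e.1 ≠ e.2},
      primeSet (Nat.card ↥(H e.1.1 ⊔ H e.1.2)) := by
    apply Set.Subset.antisymm
    · intro p hp
      obtain ⟨i, hi⟩ := exists_dvd hmp htop hp
      obtain ⟨j, hij⟩ := hother i
      exact Set.mem_iUnion.2 ⟨⟨(i, j), hij⟩, hi.1, hi.2.trans (card_dvd_of_le le_sup_left)⟩
    · refine Set.iUnion_subset fun e => ?_
      rintro p ⟨hp, hd⟩
      exact ⟨hp, hd.trans (card_subgroup_dvd_card _)⟩
  constructor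
  · refine graph_ext hV (Set.Subset.antisymm ?_ ?_)
    · rintro ⟨p, q⟩ hpqe
      obtain ⟨hp, hq, hpq, hno⟩ := nc_edge.1 hpqe
      by_contra hne
      have h1 : ∀ i j, i ≠ j → NN p q (H i ⊔ H j) := by
        intro i j hij
        by_contra h2
        exact hne (Set.mem_iUnion.2 ⟨⟨(i, j), hij⟩, nc_edge_sub.2 ⟨hp, hq, hpq, h2⟩⟩)
      have h2 : ∀ i j, NN p q (H i ⊔ H j) := by
        intro i j
        by_cases hij : i = j
        · obtain ⟨l, hl⟩ := hother i
          rw [← hij, sup_idem]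
          exact NN_mono le_sup_left (h1 i l hl)
        · exact h1 i j hij
      exact hno (nc_thm2 hp hq hpq _ G (Fin n) H rfl hmp htop h2)
    · refine Set.iUnion_subset fun e => ?_
      rintro ⟨p, q⟩ hpqe
      obtain ⟨hp, hq, hpq, hno⟩ := nc_edge_sub.1 hpqe
      exact nc_edge.2 ⟨hp, hq, hpq, fun h1 => hno (NN_mono le_top h1)⟩
  · refine graph_ext (congrArg (fun V => V ∪ primeSet (Nat.card G)) hV) (Set.Subset.antisymm ?_ ?_)
    · rintro ⟨p, q⟩ (hpqe | hl)
      · by_cases hpq : p = q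
        · exact Or.inr ⟨hpqe.1, hpq.symm⟩
        obtain ⟨hp, hq, hd⟩ := (hk_edge hpq).1 hpqe
        by_contra hne
        have h1 : ∀ i j, i ≠ j → ¬ p ∣ Nat.card (Kq q (H i ⊔ H j)) := by
          intro i j hij h2
          rw [kq_card hq] at h2
          exact hne (Or.inl (Set.mem_iUnion.2 ⟨⟨(i, j), hij⟩, (hk_edge hpq).2 ⟨hp, hq, h2⟩⟩))
        have h2 : ∀ i j, ¬ p ∣ Nat.card (Kq q (H i ⊔ H j)) := by
          intro i j
          by_cases hij : i = j
          · obtain ⟨l, hl⟩ := hother i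
            rw [← hij, sup_idem]
            exact fun h3 => h1 i l hl (h3.trans (card_dvd_of_le (closure_mono
              fun x hx => ⟨le_sup_left (b := H l) hx.1, hx.2⟩)))
          · exact h1 i j hij
        exact hk_thm2 hp hq hpq _ G (Fin n) H rfl hmp htop h2 hd
      · exact Or.inr hl
    · rintro ⟨p, q⟩ (hpqe | hl)
      · obtain ⟨e, he⟩ := Set.mem_iUnion.1 hpqe
        by_cases hpq : p = q
        · exact Or.inr ⟨⟨he.1.1, he.1.2.trans (card_subgroup_dvd_card _)⟩, hpq.symm⟩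
        obtain ⟨hp, hq, hd⟩ := (hk_edge hpq).1 he
        refine Or.inl ((hk_edge hpq).2 ⟨hp, hq, ?_⟩)
        rw [← kq_card hq] at hd
        exact hd.trans (card_dvd_of_le (closure_mono fun x hx => ⟨mem_top _, hx.2⟩))
      · exact Or.inr hl

end Pool.Agent.Results.MP_11c1cd_al.PairsSuffice
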